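import Pool.Agent.H.MP_27056a_lc.A

open Pool.Agent.H.MP_27056a_lc

namespace Pool.Agent.Results.MP_27056a_lc.Yes

theorem result (d : ℕ) (hd : 2 ≤ d) :
    ∃ (X : Type) (_ : MeasurableSpace X) (_ : StandardBorelSpace X) (a : (Fin d → ℤ) → X → X),
      (∀ x, a 0 x = x) ∧ (∀ m n x, a (m + n) x = a m (a n x)) ∧ (∀ n, Measurable (a n)) ∧
      (∀ n x, a n x = x → n = 0) ∧
      (∀ i, ∃ c : X → Bool, Measurable c ∧ ∀ x, c (a (Pi.single i 1) x) ≠ c x) ∧
      ¬ ∃ c : X → Fin (2 ^ d), Measurable c ∧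
        ∀ x k, ∃ ε : Fin d → ℤ, (∀ i, ε i = 0 ∨ ε i = 1) ∧ c (a ε x) = k := by
  refine ⟨T d, inferInstance, inferInstance, fun n x => ph n + x, fun x => by simp [ph],
    fun m n x => by simp only [ph_add, add_assoc], fun n => measurable_const_add _,
    fun n x h => free hd (by simpa using h), fun i => ?_, fun ⟨c, h1, h2⟩ => nocol hd c h1 h2⟩
  obtain ⟨c, h1, h2⟩ := col
  refine ⟨fun x => c (x i), h1.comp (measurable_pi_apply i), fun x => ?_⟩
  simpa [ph_single, av] using h2 (x i)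

end Pool.Agent.Results.MP_27056a_lc.Yes
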